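import Mathlib
import Pool.Agent.Q163.PG.Main

set_option autoImplicit false

/-!
# Indecomposability of the finite projective geometries

The polytope of the matroid `PG(r - 1, q)` has no matroid subdivision besides the trivial one, for
every prime power `q` and every `r ≥ 3`. Arbitrary subdivisions are allowed, not only regular ones.

The definitions (the matroid polytope, faces, matroid subdivisions, indecomposable matroids) are in
`Pool/Agent/Q163/PG/Poly.lean`, the matroid of a finite projective space is in
`Pool/Agent/Q163/PG/Space.lean`.
-/

open scoped LinearAlgebra.Projectivization

namespace Pool.Agent.Results.MP_da28a5_co.ProjectiveGeometries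

open Pool.Agent.Q163.PG

/-- **The finite projective geometries of rank at least three are indecomposable.** Here `V` is a
finite vector space over a field `K`; if `K` has `q` elements and `V` has dimension `r`, then `PG K V`
is the matroid `PG(r - 1, q)`. -/
theorem result (K V : Type) [Field K] [AddCommGroup V] [Module K V] [Finite V]
    (hr : 3 ≤ Module.finrank K V) : Indecomposable (PG K V) := by
  classical
  have _ : Fintype (ℙ K V) := Fintype.ofFinite _
  intro S hS
  have hM := polytope_mem hS hr
  ext F
  constructor
  · intro hF
    obtain ⟨N, -, hN⟩ := hS.cells F hF
    have hne : F.Nonempty := by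
      obtain ⟨B, hB⟩ := exists_base N
      exact ⟨_, by rw [hN]; exact vec_mem N B hB⟩
    have hsub : F ⊆ polytope (PG K V) := by
      rw [← hS.cover]
      exact Set.subset_sUnion_of_mem hF
    have h1 : polytope (PG K V) ∩ F = F := Set.inter_eq_right.2 hsub
    have h2 := (hS.inter _ hM _ hF (by rw [h1]; exact hne)).1
    rw [h1] at h2
    exact h2
  · intro hF
    exact hS.face _ hM F hF

end Pool.Agent.Results.MP_da28a5_co.ProjectiveGeometries
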